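import Pool.Graph.R_pool_sql_team_seeded_3997aac3.Q68.MZ.LA
import Pool.Graph.R_pool_sql_team_seeded_3997aac3.Q182.MZ.LFa

/-!
# Project MZ, job MZ-LB: the local norm index (all bad primes together), quadratic extensions

The `σ`-module `C = Eˣ / A` is an extension of the divisors above `N1` by a finite module; `q1 C = 1`
by the norm theorem `S_LA`, and `q0 C` is the index of the statement.
-/

set_option autoImplicit false
set_option linter.unusedSectionVars false
set_option linter.deprecated false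

namespace Pool.Agent.H183.BT

section one

open NumberField IsDedekindDomain Pool.Agent.Q92.AR Pool.Agent.Q5.BR Pool.Agent.TeamU Pool.Agent.Q149.AR
open Pool.Agent.Q5.MZ (NonSplit)

variable {F E : Type} [Field F] [NumberField F] [Field E] [NumberField E] [Algebra F E]

theorem prod_two {T : Type} [Fintype T] (P : T → Prop) (d : T → ℕ) (h1 : ∀ y, P y → d y = 2)
    (h2 : ∀ y, ¬ P y → d y = 1) : ∏ y, d y = 2 ^ Nat.card {y // P y} := by
  classical
  have h3 : ∀ y ∈ (Finset.univ : Finset T), d y = if P y then 2 else 1 := by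
    intro y _
    split_ifs with h
    · exact h1 y h
    · exact h2 y h
  rw [Finset.prod_congr rfl h3, Finset.prod_ite, Finset.prod_const_one, mul_one, Finset.prod_const,
    Nat.card_eq_fintype_card, Fintype.card_subtype]

/-- the Herbrand quotients of the divisors above `T` in a quadratic extension -/
theorem q_SupE2 (hperm : S_Perm) [IsGalois F E] {σ : E ≃ₐ[F] E}
    (hσ : ∀ g : E ≃ₐ[F] E, g ∈ Subgroup.zpowers σ) (h2 : Module.finrank F E = 2)
    {T : Set (HeightOneSpectrum (𝓞 F))} (hT : T.Finite) (ι : AddMonoid.End (SupE F E T))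
    (hι : IsRes (sD σ) ι) :
    q0 ι (Module.finrank F E) = 2 ^ Nat.card {v : HeightOneSpectrum (𝓞 F) // v ∈ T ∧ NonSplit E v} ∧
      q1 ι (Module.finrank F E) = 1 := by
  classical
  have hTf : Finite T := hT
  have hXf : Finite {w : HeightOneSpectrum (𝓞 E) // w.under (𝓞 F) ∈ T} := by
    have h1 : {w : HeightOneSpectrum (𝓞 E) | w.under (𝓞 F) ∈ T} = ⋃ v ∈ T, {w | w.under (𝓞 F) = v} := by
      ext w
      simp
    have h2 : {w : HeightOneSpectrum (𝓞 E) | w.under (𝓞 F) ∈ T}.Finite := by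
      rw [h1]
      exact hT.biUnion fun v _ => above_finite v
    exact h2
  have : Fintype T := Fintype.ofFinite _
  have : Fintype {w : HeightOneSpectrum (𝓞 E) // w.under (𝓞 F) ∈ T} := Fintype.ofFinite _
  have hfinG : Finite (E ≃ₐ[F] E) := inferInstance
  -- the permutation
  let e : Equiv.Perm {w : HeightOneSpectrum (𝓞 E) // w.under (𝓞 F) ∈ T} :=
    { toFun := fun w => ⟨act σ⁻¹ w.1, by rw [act_under]; exact w.2⟩
      invFun := fun w => ⟨act σ w.1, by rw [act_under]; exact w.2⟩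
      left_inv := fun w => Subtype.ext (act_act_inv σ w.1)
      right_inv := fun w => Subtype.ext (act_inv_act σ w.1) }
  have he : ∀ w, (e w).1 = act σ⁻¹ w.1 := fun w => rfl
  have hek : ∀ (k : ℕ) w, ((e ^ k) w).1 = act ((σ⁻¹) ^ k) w.1 := by
    intro k
    induction k with
    | zero => intro w; rw [pow_zero, pow_zero, act_one]; rfl
    | succ k ih =>
      intro w
      rw [pow_succ, Equiv.Perm.mul_apply, ih, he, pow_succ, act_mul]
  have ho : orderOf σ = Module.finrank F E := by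
    rw [← card_gal, orderOf_eq_card_of_forall_mem_zpowers hσ]
  have hn0 : 0 < Module.finrank F E := by rw [← ho]; exact orderOf_pos σ
  have hen : e ^ (Module.finrank F E) = 1 := by
    ext w
    rw [hek, ← ho, inv_pow, pow_orderOf_eq_one, inv_one, act_one]
    rfl
  let π : {w : HeightOneSpectrum (𝓞 E) // w.under (𝓞 F) ∈ T} → T := fun w => ⟨w.1.under (𝓞 F), w.2⟩
  have hπ : Function.Surjective π := by
    rintro ⟨v, hv⟩
    obtain ⟨w, hw⟩ := above_nonempty (E := E) v
    exact ⟨⟨w, by rw [hw]; exact hv⟩, Subtype.ext hw⟩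
  have horb : ∀ x x', π x = π x' ↔ ∃ k : ℕ, (e ^ k) x = x' := by
    intro x x'
    constructor
    · intro h
      have h1 : x.1.under (𝓞 F) = x'.1.under (𝓞 F) := congrArg Subtype.val h
      obtain ⟨g, hg⟩ := trans_act h1
      obtain ⟨k, hk⟩ : ∃ k : ℕ, (σ⁻¹) ^ k = g := by
        have h2 : g ∈ Subgroup.zpowers σ⁻¹ := by
          rw [Subgroup.zpowers_inv]
          exact hσ g
        rw [← mem_powers_iff_mem_zpowers] at h2
        exact h2
      exact ⟨k, Subtype.ext (by rw [hek, hk, hg])⟩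
    · rintro ⟨k, rfl⟩
      apply Subtype.ext
      change x.1.under (𝓞 F) = ((e ^ k) x).1.under (𝓞 F)
      rw [hek, act_under]
  -- the orders of the orbits divide the order of the group
  have hdiv : ∀ y : T, Nat.card {x // π x = y} ∣ Module.finrank F E := by
    intro y
    let _ := galMulAction F E
    obtain ⟨x0, hx0⟩ := hπ y
    have h1 : Nat.card {x // π x = y} = Nat.card (MulAction.orbit (E ≃ₐ[F] E) x0.1) := by
      refine Nat.card_congr ⟨fun x => ⟨x.1.1, ?_⟩, fun z => ⟨⟨z.1, ?_⟩, ?_⟩, fun x => ?_, fun z => ?_⟩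
      · have h2 : x0.1.under (𝓞 F) = x.1.1.under (𝓞 F) := by
          have h3 : π x0 = π x.1 := by rw [hx0, x.2]
          exact congrArg Subtype.val h3
        obtain ⟨g, hg⟩ := trans_act h2
        exact ⟨g, hg⟩
      · obtain ⟨g, hg⟩ := z.2
        have h2 : z.1 = act g x0.1 := hg.symm
        rw [h2, act_under]
        exact x0.2
      · obtain ⟨g, hg⟩ := z.2
        have h2 : z.1 = act g x0.1 := hg.symm
        rw [← hx0]
        apply Subtype.ext
        change z.1.under (𝓞 F) = x0.1.under (𝓞 F)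
        rw [h2, act_under]
      · rfl
      · rfl
    rw [h1, ← card_gal, Nat.card_congr (MulAction.orbitEquivQuotientStabilizer (E ≃ₐ[F] E) x0.1)]
    exact (MulAction.stabilizer (E ≃ₐ[F] E) x0.1).index_dvd_card
  -- the isomorphism with the functions
  let φ : SupE F E T ≃+ ({w : HeightOneSpectrum (𝓞 E) // w.under (𝓞 F) ∈ T} → ℤ) :=
    { toFun := fun D w => (D : Dv E) w.1
      invFun := fun a => ⟨Finsupp.ofSupportFinite (fun w => if h : w.under (𝓞 F) ∈ T then a ⟨w, h⟩ else 0) (by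
          refine Set.Finite.subset (s := {w : HeightOneSpectrum (𝓞 E) | w.under (𝓞 F) ∈ T}) hXf ?_
          intro w hw
          by_contra h
          exact hw (dif_neg h)), by
          intro w hw
          rw [Finsupp.ofSupportFinite_coe, dif_neg hw]⟩
      left_inv := by
        intro D
        apply Subtype.ext
        ext w
        change (if h : w.under (𝓞 F) ∈ T then (D : Dv E) w else 0) = (D : Dv E) w
        split_ifs with h
        · rfl
        · exact (D.2 w h).symm
      right_inv := by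
        intro a
        funext w
        change (if h : w.1.under (𝓞 F) ∈ T then a ⟨w.1, h⟩ else 0) = a w
        rw [dif_pos w.2]
      map_add' := by
        intro D D'
        rfl }
  let τ : AddMonoid.End ({w : HeightOneSpectrum (𝓞 E) // w.under (𝓞 F) ∈ T} → ℤ) :=
    { toFun := fun a w => a (e w)
      map_zero' := rfl
      map_add' := fun _ _ => rfl }
  have hφ : ∀ D, φ (ι D) = τ (φ D) := by
    intro D
    funext w
    change ((ι D : SupE F E T) : Dv E) w.1 = (D : Dv E) (act σ⁻¹ w.1)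
    rw [hι D, sD_apply]
  obtain ⟨hq0, hq1⟩ := q_equiv φ ι τ hφ (Module.finrank F E)
  have hcard : ∀ y : T, Nat.card {x // π x = y} * (Module.finrank F E / Nat.card {x // π x = y}) =
      Module.finrank F E := fun y => Nat.mul_div_cancel' (hdiv y)
  obtain ⟨h1, h0⟩ := hperm _ _ e (Module.finrank F E) π (fun y => Module.finrank F E / Nat.card {x // π x = y}) τ
    hn0 hen hπ horb hcard (fun _ _ => rfl)
  rw [hq0, hq1, h0, h1]
  refine ⟨?_, rfl⟩
  have hns : ∀ y : T, NonSplit E y.1 ↔ Nat.card {x // π x = y} = 1 := by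
    intro y
    rw [Nat.card_eq_one_iff_unique]
    constructor
    · intro h
      refine ⟨⟨fun x x' => ?_⟩, ?_⟩
      · apply Subtype.ext
        apply Subtype.ext
        exact h _ _ (congrArg Subtype.val x.2) (congrArg Subtype.val x'.2)
      · obtain ⟨x, hx⟩ := hπ y
        exact ⟨⟨x, hx⟩⟩
    · rintro ⟨h, -⟩ w w' hw hw'
      have h3 : (⟨⟨w, by rw [hw]; exact y.2⟩, Subtype.ext hw⟩ : {x // π x = y}) =
          ⟨⟨w', by rw [hw']; exact y.2⟩, Subtype.ext hw'⟩ := h.elim _ _
      exact congrArg (fun z => z.1.1) h3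
  have hcd : ∀ y : T, Nat.card {x // π x = y} = 1 ∨ Nat.card {x // π x = y} = 2 := by
    intro y
    have h3 := hdiv y
    rw [h2] at h3
    exact (Nat.dvd_prime Nat.prime_two).1 h3
  rw [prod_two (fun y : T => NonSplit E y.1)]
  · congr 1
    refine Nat.card_congr ⟨fun y => ⟨y.1.1, y.1.2, y.2⟩, fun v => ⟨⟨v.1, v.2.1⟩, v.2.2⟩, fun _ => rfl,
      fun _ => rfl⟩
  · intro y hy
    rw [(hns y).1 hy, h2]
  · intro y hy
    rcases hcd y with h | h
    · exact absurd ((hns y).2 h) hy
    · rw [h, h2]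

end one

section two

open NumberField IsDedekindDomain Pool.Agent.Q92.AR Pool.Agent.Q5.BR Pool.Agent.Q225.AR

variable {F : Type} [Field F] [NumberField F]

/-- elements with the same residue -/
theorem cong_div {N : ℕ} {x x' : Fˣ} (hx' : prin x' ∈ Pr F N) {a b a' b' : 𝓞 F}
    (hb : (N : 𝓞 F) ∣ b - 1) (hab : (x : F) * (b : F) = a) (hb' : (N : 𝓞 F) ∣ b' - 1)
    (hab' : (x' : F) * (b' : F) = a') (h : (N : 𝓞 F) ∣ a - a') : Cong N ((x / x' : Fˣ) : F) := by
  intro v hv
  obtain ⟨c, hc⟩ := h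
  have hvb : ∀ b : 𝓞 F, (N : 𝓞 F) ∣ b - 1 → v.valuation F (b : F) = 1 := by
    rintro b ⟨c, hc⟩
    have h3 : v.valuation F ((b : F) - 1) ≤ v.valuation F (N : F) := by
      have h4 : (b : F) - 1 = (N : F) * (c : F) := by
        have := congrArg (algebraMap (𝓞 F) F) hc
        simpa using this
      rw [h4, map_mul]
      exact mul_le_of_le_one_right' (v.valuation_le_one c)
    exact val_eq_one hv h3
  have hb1 := hvb _ hb
  have hb2 := hvb _ hb'
  obtain ⟨c1, hc1⟩ := hb
  obtain ⟨c2, hc2⟩ := hb'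
  have hxv : v.valuation F (x' : F) = 1 := by
    rw [Pool.Agent.Q125.AR.valuation_eq_exp, hx' v hv, neg_zero, WithZero.exp_zero]
  have hb1' : (b : F) ≠ 0 := fun h0 => by rw [h0, map_zero] at hb1; exact zero_ne_one hb1
  have hb2' : (b' : F) ≠ 0 := fun h0 => by rw [h0, map_zero] at hb2; exact zero_ne_one hb2
  have hx2' : (x' : F) ≠ 0 := x'.ne_zero
  have e1 : ((x / x' : Fˣ) : F) - 1 = (((a : F) * b' - a' * b)) /
      ((b : F) * (b') * x') := by
    rw [Units.val_div_eq_div_val, ← hab, ← hab']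
    field_simp
  have e2 : ((a : F) * b' - a' * b)
      = (N : F) * ((c * b' + a' * (c2 - c1) : 𝓞 F) : F) := by
    have e3 : a * b' - a' * b = (N : 𝓞 F) * (c * b' + a' * (c2 - c1)) := by
      have e4 : a = a' + N * c := by rw [← hc]; ring
      have e5 : b = 1 + N * c1 := by rw [← hc1]; ring
      have e6 : b' = 1 + N * c2 := by rw [← hc2]; ring
      rw [e4, e5, e6]
      ring
    have := congrArg (algebraMap (𝓞 F) F) e3
    simpa using this
  rw [e1, map_div₀, map_mul, map_mul, hb1, hb2, hxv, mul_one, mul_one, div_one, e2, map_mul]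
  exact mul_le_of_le_one_right' (v.valuation_le_one _)

/-- a set of classes of units at `N` is finite -/
theorem finite_classes {N : ℕ} (hN : N ≠ 0) {K : Type} (f : K → Fˣ) (hf : ∀ c, prin (f c) ∈ Pr F N)
    (hinj : ∀ c c', Cong N ((f c / f c' : Fˣ) : F) → c = c') : Finite K := by
  classical
  have hfin : Finite (𝓞 F ⧸ Ideal.span {(N : 𝓞 F)}) := by
    refine Ideal.finiteQuotientOfFreeOfNeBot _ ?_
    intro h
    have h1 : (N : 𝓞 F) = 0 := Ideal.span_singleton_eq_bot.1 h
    exact hN (Nat.cast_eq_zero.1 h1)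
  choose a b hb hab using fun c => exists_res hN (hf c)
  refine Finite.of_injective (fun c => (Ideal.Quotient.mk (Ideal.span {(N : 𝓞 F)}) (a c))) ?_
  intro c c' h
  refine hinj c c' (cong_div (hf c') (hb c) (hab c) (hb c') (hab c') ?_)
  have h1 := Ideal.Quotient.eq.1 h
  exact Ideal.mem_span_singleton.1 h1

theorem prin_zpow (x : Fˣ) (m : ℤ) : prin (x ^ m) = m • prin x :=
  (prinHom (F := F)).map_zsmul m (Additive.ofMul x)

theorem exists_prin (v : HeightOneSpectrum (𝓞 F)) (m : ℤ) : ∃ x : Fˣ, prin x v = m := by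
  obtain ⟨π, hπ⟩ := v.valuation_exists_uniformizer F
  have hπ0 : π ≠ 0 := by
    rintro rfl
    rw [map_zero] at hπ
    exact WithZero.coe_ne_zero hπ.symm
  refine ⟨(Units.mk0 π hπ0) ^ m, ?_⟩
  rw [prin_zpow, Finsupp.smul_apply, Pool.Agent.Q182.AR.prin_log, Units.val_mk0, hπ]
  simp

end two

section three

open NumberField IsDedekindDomain Pool.Agent.Q5.BR Pool.Agent.Q92.AR Pool.Agent.Q182.AR
open Pool.Agent.Q5.MZ (PosRam VAData S_LA S_LB J_LB NonSplit)

/-- Herbrand quotients of a quotient by a finite module -/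
theorem herb_quot {C M : Type} [AddCommGroup C] [AddCommGroup M] (hHex : S_Hex) (hHFin : S_HFin)
    (γ : AddMonoid.End C) (ι : AddMonoid.End M) (p : C →+ M) {n : ℕ} (hn : 0 < n) (hγ : γ ^ n = 1)
    (hι : ι ^ n = 1) (hp : Function.Surjective p) (hpγ : ∀ c, p (γ c) = ι (p c)) (hfin : Finite p.ker)
    (h0 : q0 ι n ≠ 0) (h1 : q1 ι n ≠ 0) : q0 γ n * q1 ι n = q1 γ n * q0 ι n := by
  have hKγ : ∀ x ∈ p.ker, γ x ∈ p.ker := by
    intro x hx
    rw [AddMonoidHom.mem_ker] at hx ⊢
    rw [hpγ, hx, map_zero]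
  have hκ : IsRes γ (resE γ p.ker hKγ) := resE_isRes _ _ _
  have hκn : (resE γ p.ker hKγ) ^ n = 1 := res_pow_one hκ hγ
  obtain ⟨hκq, hκ0⟩ := hHFin p.ker (resE γ p.ker hKγ) n hn hκn
  obtain ⟨x1, -, -, x4⟩ := hHex p.ker C M (resE γ p.ker hKγ) γ ι p.ker.subtype p n hn hκn hγ hι
    (AddSubgroup.subtype_injective _) hp (AddSubgroup.range_subtype _) (fun a => (hκ a).symm) hpγ
  have hκ1 : q1 (resE γ p.ker hKγ) n ≠ 0 := by
    rw [← hκq]
    exact hκ0
  obtain ⟨hγ0, hγ1⟩ := x1 ⟨hκ0, hκ1, h0, h1⟩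
  have hmain := x4 ⟨hκ0, hκ1, hγ0, hγ1, h0, h1⟩
  rw [← hκq] at hmain
  refine Nat.eq_of_mul_eq_mul_left (Nat.pos_of_ne_zero hκ0) ?_
  calc q0 (resE γ p.ker hKγ) n * (q0 γ n * q1 ι n)
      = q0 γ n * q0 (resE γ p.ker hKγ) n * q1 ι n := by ring
    _ = q1 γ n * q0 (resE γ p.ker hKγ) n * q0 ι n := hmain
    _ = q0 (resE γ p.ker hKγ) n * (q1 γ n * q0 ι n) := by ring

section
variable {F E : Type} [Field F] [NumberField F] [Field E] [NumberField E] [Algebra F E]

open scoped Classical in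
/-- the part of the divisor of `x` above `T` -/
noncomputable def partT (T : Set (HeightOneSpectrum (𝓞 F))) : Additive Eˣ →+ SupE F E T :=
  ((Finsupp.filterAddHom (fun w : HeightOneSpectrum (𝓞 E) => w.under (𝓞 F) ∈ T)).comp
    (prinHom (F := E))).codRestrict (SupE F E T) fun x => by
      intro w hw
      exact Finsupp.filter_apply_neg _ _ hw

theorem partT_pos {T : Set (HeightOneSpectrum (𝓞 F))} (x : Additive Eˣ)
    {w : HeightOneSpectrum (𝓞 E)} (hw : w.under (𝓞 F) ∈ T) :
    ((partT T x : SupE F E T) : Dv E) w = prin x.toMul w := by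
  classical
  exact Finsupp.filter_apply_pos _ _ hw

theorem partT_neg {T : Set (HeightOneSpectrum (𝓞 F))} (x : Additive Eˣ)
    {w : HeightOneSpectrum (𝓞 E)} (hw : w.under (𝓞 F) ∉ T) :
    ((partT T x : SupE F E T) : Dv E) w = 0 := by
  classical
  exact Finsupp.filter_apply_neg _ _ hw

/-- the core of the computation, for a model `C` of `Eˣ / A` -/
theorem core (hHex : S_Hex) (hHFin : S_HFin) (hNm : S_Nm) (hSD : S_SD) (hPerm : S_Perm)
    (hLA : S_LA) [IsGalois F E] (σ : E ≃ₐ[F] E) (N1 N2 : ℕ) (A : Subgroup Eˣ)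
    (h2 : Module.finrank F E = 2) (hV : VAData F E σ N1 N2 A)
    (C : Type) [AddCommGroup C] (π : Additive Eˣ →+ C) (hπ : Function.Surjective π)
    (hπA : ∀ x, π x = 0 ↔ x.toMul ∈ A) (γ : AddMonoid.End C) (hγπ : ∀ x, γ (π x) = π (sE σ x))
    (T : Set (HeightOneSpectrum (𝓞 F))) (hTm : ∀ v, v ∈ T ↔ (N1 : 𝓞 F) ∈ v.asIdeal)
    (p : C →+ SupE F E T) (hpπ : ∀ x, p (π x) = partT T x) :
    ((nu F E).range ⊔ A.comap (up F E)).index =
      2 ^ Nat.card {v : HeightOneSpectrum (𝓞 F) // (N1 : 𝓞 F) ∈ v.asIdeal ∧ NonSplit E v} := by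
  classical
  obtain ⟨hσ, hN1, hN2, hRam1, h12, hk, hAσ, hA1, hA2, hAH⟩ := id hV
  have hPrE : Pr E N2 = Pr E N1 := Pr_eq h12 hk
  obtain ⟨m1, m2, m3, m4, m5, m6⟩ := hNm F E
  obtain ⟨s1, s2, s3, s4, s5, s6, s7⟩ := hSD F E σ hσ
  have hn0 : 0 < Module.finrank F E := Module.finrank_pos
  -- the primes dividing `N1`
  have hTfin : T.Finite := (Pool.Agent.Q125.AR.finite_dvd hN1).subset fun v hv => (hTm v).1 hv
  have hPA : ∀ w : HeightOneSpectrum (𝓞 E), w.under (𝓞 F) ∈ T ↔ (N1 : 𝓞 E) ∈ w.asIdeal :=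
    fun w => (hTm _).trans under_mem
  -- the modules
  have hγn : γ ^ Module.finrank F E = 1 := by
    refine DFunLike.ext _ _ fun c => ?_
    obtain ⟨x, rfl⟩ := hπ c
    rw [← Pool.Agent.Q149.AR.pow_comm' π (sE σ) γ (fun a => (hγπ a).symm), sE_pow_finrank]
    rfl
  obtain ⟨ι, hι⟩ : ∃ ι : AddMonoid.End (SupE F E T), IsRes (sD σ) ι :=
    ⟨resE (sD σ) (SupE F E T) fun D hD => sD_mem σ T hD, resE_isRes _ _ _⟩
  have hιn : ι ^ Module.finrank F E = 1 := res_pow_one hι (sD_pow_finrank σ)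
  obtain ⟨hι0, hι1⟩ := q_SupE2 hPerm hσ h2 hTfin ι hι
  have hpγ : ∀ c, p (γ c) = ι (p c) := by
    intro c
    obtain ⟨x, rfl⟩ := hπ c
    rw [hγπ, hpπ, hpπ]
    apply Subtype.ext
    rw [hι]
    ext w
    obtain ⟨w', rfl⟩ := Pool.Agent.Q225.AR.act_surj σ w
    rw [Pool.Agent.Q225.AR.sD_act]
    by_cases hw : w'.under (𝓞 F) ∈ T
    · rw [partT_pos _ hw, partT_pos _ (by rw [under_act]; exact hw), s1,
        Pool.Agent.Q225.AR.sD_act]
    · rw [partT_neg _ hw, partT_neg _ (by rw [under_act]; exact hw)]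
  have hpsurj : Function.Surjective p := by
    intro D
    choose y hy using fun w : HeightOneSpectrum (𝓞 E) => exists_prin w ((D : Dv E) w)
    obtain ⟨z, -, hz⟩ := Pool.Agent.Q182.MZ.apx hN1 y
    refine ⟨π (Additive.ofMul z), ?_⟩
    rw [hpπ]
    apply Subtype.ext
    ext w
    by_cases hw : w.under (𝓞 F) ∈ T
    · rw [partT_pos _ hw]
      have h3 := (hPA w).1 hw
      change prin z w = (D : Dv E) w
      rw [Pool.Agent.Q182.MZ.prin_eq_of_near h3 (hz w h3), hy]
    · rw [partT_neg _ hw]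
      exact (D.2 w hw).symm
  -- the kernel
  have hKfin : Finite p.ker := by
    choose f hf using fun c : p.ker => hπ (c : C)
    refine finite_classes hN2 (fun c => (f c).toMul) ?_ ?_
    · intro c
      rw [hPrE]
      intro w hw
      have h3 : partT T (f c) = 0 := by
        rw [← hpπ, hf]
        exact c.2
      rw [← partT_pos (f c) ((hPA w).2 hw), h3]
      rfl
    · intro c c' h
      apply Subtype.ext
      rw [← hf, ← hf, ← sub_eq_zero, ← map_sub, hπA]
      exact hA2 _ h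
  have hmain := herb_quot hHex hHFin γ ι p hn0 hγn hιn hpsurj hpγ hKfin
    (by rw [hι0]; exact pow_ne_zero _ two_ne_zero) (by rw [hι1]; exact one_ne_zero)
  -- `q1 γ = 1`
  have htr : ∀ x : Additive Eˣ, tr γ (Module.finrank F E) (π x) = π (upA F E (nuA F E x)) := by
    intro x
    rw [← tr_sE σ hσ]
    exact (Pool.Agent.Q149.AR.tr_comm π (sE σ) γ (fun a => (hγπ a).symm) _ x).symm
  have hq1 : q1 γ (Module.finrank F E) = 1 := by
    unfold q1
    rw [AddSubgroup.relIndex_eq_one]
    intro c hc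
    obtain ⟨y, rfl⟩ := hπ c
    rw [AddMonoidHom.mem_ker, htr, hπA] at hc
    have hxA : up F E (nu F E y.toMul) ∈ A := hc
    have hxP : PosRam E (nu F E y.toMul) := fun φ hφ => m5 φ _ hφ
    have hxD : ∃ D ∈ Pr E N1, nmD F E D = prin (nu F E y.toMul) := by
      obtain ⟨D2, hD2e⟩ : ∃ D2 : Dv E, D2 = prin y.toMul - (partT T y : SupE F E T) := ⟨_, rfl⟩
      have hD2 : D2 ∈ SupE F E Tᶜ := by
        intro w hw
        rw [hD2e, Finsupp.sub_apply, partT_pos _ (by simpa using hw), sub_self]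
      refine ⟨D2, ?_, ?_⟩
      · intro w hw
        exact hD2 w (fun h => h ((hPA w).2 hw))
      · have hn1 := nmD_mem T (partT T y : SupE F E T).2
        have hn2 := nmD_mem Tᶜ hD2
        have he : nmD F E (partT T y : SupE F E T) + nmD F E D2 = prin (nu F E y.toMul) := by
          rw [← map_add, hD2e, add_sub_cancel, m1]
        ext v
        have h1 := congrArg (fun D : Dv F => D v) he
        change (nmD F E (partT T y : SupE F E T)) v + (nmD F E D2) v = prin (nu F E y.toMul) v at h1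
        by_cases hv : v ∈ T
        · have h3 : prin (nu F E y.toMul) v = 0 := by
            rw [prin_eq_zero_iff]
            obtain ⟨w, rfl⟩ := exists_above (E := E) v
            rw [val_up]
            have h4 := (hPA w).1 hv
            exact val_eq_one h4 (hA1 _ hxA w h4)
          rw [h3]
          exact hn2 v (fun h => h hv)
        · rw [hn1 v hv, zero_add] at h1
          exact h1
    obtain ⟨a, haA, ha⟩ := hLA F E σ N1 N2 A hV (nu F E y.toMul) hxA hxP hxD
    obtain ⟨u, hu⟩ : ∃ u : Eˣ, u = y.toMul / a := ⟨_, rfl⟩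
    have hnorm : Algebra.norm F (u : E) = 1 := by
      have h3 : nu F E u = 1 := by
        rw [hu, map_div, ha, div_self']
      exact congrArg Units.val h3
    have hcyc : IsCyclic (E ≃ₐ[F] E) := ⟨σ, hσ⟩
    obtain ⟨t, ht⟩ := groupCohomology.exists_div_of_norm_eq_one hσ hnorm
    obtain ⟨z, hz⟩ : ∃ z : Eˣ, Units.map (σ : E →* E) z / z = u := by
      refine ⟨t⁻¹, ?_⟩
      apply Units.ext
      rw [← ht]
      simp [div_eq_mul_inv, mul_comm]
    refine ⟨π (Additive.ofMul z), ?_⟩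
    rw [df_apply, hγπ, ← map_sub, ← sub_eq_zero, ← map_sub, hπA]
    have h3 : (sE σ (Additive.ofMul z) - Additive.ofMul z - y).toMul = a⁻¹ := by
      change (Units.map (σ : E →* E) z / z) / y.toMul = a⁻¹
      rw [hz, hu, div_div, mul_comm a, ← div_div, div_self', one_div]
    rw [h3]
    exact A.inv_mem haA
  -- `q0 γ`
  have hker : (df γ).ker = (⊤ : AddSubgroup (Additive Fˣ)).map (π.comp (upA F E)) := by
    ext c
    constructor
    · intro hc
      obtain ⟨x, rfl⟩ := hπ c
      rw [AddMonoidHom.mem_ker, df_apply, hγπ, ← map_sub, hπA] at hc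
      obtain ⟨c, hc⟩ := hAH x.toMul hc
      refine ⟨Additive.ofMul c, AddSubgroup.mem_top _, ?_⟩
      rw [AddMonoidHom.comp_apply, eq_comm, ← sub_eq_zero, ← map_sub, hπA]
      exact hc
    · rintro ⟨c, -, rfl⟩
      rw [AddMonoidHom.mem_ker, df_apply, sub_eq_zero, AddMonoidHom.comp_apply, hγπ]
      have h3 : sE σ (upA F E c) = upA F E c := by
        apply Additive.toMul.injective
        apply Units.ext
        exact σ.commutes _
      rw [h3]
  have hrange : (tr γ (Module.finrank F E)).range = ((nuA F E).range).map (π.comp (upA F E)) := by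
    ext c
    constructor
    · rintro ⟨c, rfl⟩
      obtain ⟨x, rfl⟩ := hπ c
      exact ⟨nuA F E x, ⟨x, rfl⟩, (htr x).symm⟩
    · rintro ⟨_, ⟨x, rfl⟩, rfl⟩
      exact ⟨π x, htr x⟩
  have hjker : (π.comp (upA F E)).ker = (Subgroup.toAddSubgroup A).comap (upA F E) := by
    ext c
    rw [AddMonoidHom.mem_ker, AddMonoidHom.comp_apply, hπA]
    rfl
  have hq0 : q0 γ (Module.finrank F E) = ((nu F E).range ⊔ A.comap (up F E)).index := by
    unfold q0
    rw [hker, hrange, AddSubgroup.relIndex_map_map, top_sup_eq, AddSubgroup.relIndex_top_right, hjker,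
      ← Subgroup.index_toAddSubgroup, map_sup]
    rfl
  rw [hι1, hq1, mul_one, one_mul] at hmain
  rw [← hq0, hmain, hι0]
  refine congrArg (fun m => 2 ^ m) (Nat.card_congr (Equiv.subtypeEquivRight fun v => ?_))
  rw [hTm]

end

/-- **The local norm index** from the algebra of Herbrand quotients -/
theorem lb_of (hHex : S_Hex) (hHFin : S_HFin) (hNm : S_Nm) (hSD : S_SD) (hPerm : S_Perm) : J_LB := by
  classical
  intro hLA F E _ _ _ _ _ _ σ N1 N2 A h2 hV
  have hAσ' : ∀ x ∈ Subgroup.toAddSubgroup A, sE σ x ∈ Subgroup.toAddSubgroup A :=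
    fun x hx => hV.stable _ hx
  have hp0A : ∀ x ∈ Subgroup.toAddSubgroup A,
      partT (F := F) {v : HeightOneSpectrum (𝓞 F) | (N1 : 𝓞 F) ∈ v.asIdeal} x = 0 := by
    intro x hx
    apply Subtype.ext
    ext w
    by_cases hw : w.under (𝓞 F) ∈ {v : HeightOneSpectrum (𝓞 F) | (N1 : 𝓞 F) ∈ v.asIdeal}
    · rw [partT_pos _ hw]
      exact Pool.Agent.Q225.AR.prin_cong (hV.sub _ hx) (under_mem.1 hw)
    · rw [partT_neg _ hw]
      rfl
  exact core hHex hHFin hNm hSD hPerm hLA σ N1 N2 A h2 hV (Additive Eˣ ⧸ Subgroup.toAddSubgroup A)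
    (QuotientAddGroup.mk' (Subgroup.toAddSubgroup A)) (QuotientAddGroup.mk'_surjective _)
    (fun x => QuotientAddGroup.eq_zero_iff x) (quoE (sE σ) (Subgroup.toAddSubgroup A) hAσ')
    (fun x => rfl) {v : HeightOneSpectrum (𝓞 F) | (N1 : 𝓞 F) ∈ v.asIdeal} (fun v => Iff.rfl)
    (QuotientAddGroup.lift (Subgroup.toAddSubgroup A) (partT _) hp0A) (fun x => rfl)

/-- **MZ-LB**: the local norm index (all bad primes together), `[E : k] = 2` -/
theorem lb : Pool.Agent.Q5.MZ.J_LB :=
  lb_of Pool.Agent.Q150.AR.hex Pool.Agent.Q150.AR.hFin Pool.Agent.Q106.AR.nm all_SD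
    Pool.Agent.Q225.AR.perm

/-- **The local norm index**, nothing assumed -/
theorem lb' : Pool.Agent.Q5.MZ.S_LB := lb Pool.Agent.Q68.MZ.la

end three

end Pool.Agent.H183.BT
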